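import Mathlib
import Pool.Agent.R820.HF.CoDiag

set_option autoImplicit false

namespace Pool.Agent.Results.MP_d32a8c_gt.SeparableCompact

open Set Topology

universe u

/-- The co-diagonal of `X`, with the subspace topology of the product `X × X`. -/
abbrev CoDiagonal (X : Type u) : Type u := {p : X × X // p.1 ≠ p.2}

/-- The closure of every discrete subset is Lindelöf. -/
def DiscretelyLindelof (Z : Type u) [TopologicalSpace Z] : Prop :=
  ∀ D : Set Z, DiscreteTopology D → IsLindelof (closure D)

/-- Tychonoff, and every continuous real function is bounded. -/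
def Pseudocompact (X : Type u) [TopologicalSpace X] : Prop :=
  T35Space X ∧ ∀ f : X → ℝ, Continuous f → ∃ M : ℝ, ∀ x, |f x| ≤ M

lemma compact_of_lindelof {X : Type u} [TopologicalSpace X] [LindelofSpace X]
    (hps : Pseudocompact X) : CompactSpace X := by
  classical
  obtain ⟨hT, hps⟩ := hps
  have hn : NormalSpace X := inferInstance
  refine ⟨isCompact_of_finite_subcover ?_⟩
  intro ι U hU hcov
  obtain ⟨r, hr, hrcov⟩ := isLindelof_univ.elim_countable_subcover U hU hcov
  by_contra hno
  push Not at hno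
  have hrne : r.Nonempty := by
    by_contra h
    rw [not_nonempty_iff_eq_empty] at h
    subst h
    refine hno ∅ ?_
    simpa using hrcov
  obtain ⟨e, rfl⟩ := hr.exists_eq_range hrne
  have hW : ∀ n : ℕ, ∃ x, ∀ k < n, x ∉ U (e k) := by
    intro n
    have h1 := hno ((Finset.range n).image e)
    rw [not_subset] at h1
    obtain ⟨x, -, hx⟩ := h1
    refine ⟨x, fun k hk hxk => hx ?_⟩
    exact mem_iUnion₂.2 ⟨e k, Finset.mem_image_of_mem _ (Finset.mem_range.2 hk), hxk⟩
  choose y hy using hW
  have hloc : ∀ z : X, ∃ O, IsOpen O ∧ z ∈ O ∧ {n | y n ∈ O}.Finite := by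
    intro z
    obtain ⟨_, ⟨k, rfl⟩, hz⟩ := mem_iUnion₂.1 (hrcov (mem_univ z))
    refine ⟨U (e k), hU _, hz, (finite_le_nat k).subset ?_⟩
    intro n hn
    by_contra hlt
    exact hy n k (not_le.1 hlt) hn
  have hfib : ∀ c : X, {n | y n = c}.Finite := by
    intro c
    obtain ⟨O, -, hc, hO⟩ := hloc c
    exact hO.subset fun n (hn : y n = c) => show y n ∈ O from hn.symm ▸ hc
  have hcl : IsClosed (range y) := by
    have h1 : range y = ⋃ n, {y n} := by
      ext z
      simp [eq_comm]
    rw [h1]
    refine LocallyFinite.isClosed_iUnion ?_ fun n => isClosed_singleton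
    intro z
    obtain ⟨O, hO, hz, hf⟩ := hloc z
    refine ⟨O, hO.mem_nhds hz, hf.subset ?_⟩
    rintro n ⟨w, hw, hw'⟩
    rw [mem_singleton_iff] at hw
    subst hw
    exact hw'
  have hdisc : DiscreteTopology (range y) := by
    rw [discreteTopology_subtype_iff']
    intro c hc
    obtain ⟨O, hO, hz, hf⟩ := hloc c
    have hS : ((y '' {n | y n ∈ O}) \ {c}).Finite := (hf.image y).subset (fun _ hx => hx.1)
    refine ⟨O ∩ ((y '' {n | y n ∈ O}) \ {c})ᶜ, hO.inter hS.isClosed.isOpen_compl, ?_⟩
    ext w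
    constructor
    · rintro ⟨⟨h1, h2⟩, n, rfl⟩
      by_contra h3
      exact h2 ⟨⟨n, h1, rfl⟩, h3⟩
    · intro hw
      rw [mem_singleton_iff.1 hw]
      exact ⟨⟨hz, fun h => h.2 rfl⟩, hc⟩
  let f0 : C(range y, ℝ) := ⟨fun c => (((hfib c.1).toFinset.sup id : ℕ) : ℝ),
    continuous_of_discreteTopology⟩
  obtain ⟨g, hg⟩ := f0.exists_restrict_eq hcl
  obtain ⟨M, hM⟩ := hps g g.continuous
  obtain ⟨n, hn⟩ := exists_nat_gt M
  have h1 : g (y n) = f0 ⟨y n, n, rfl⟩ := by
    rw [← hg]
    rfl
  have h2 : (n : ℝ) ≤ f0 ⟨y n, n, rfl⟩ := by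
    change (n : ℝ) ≤ (((hfib (y n)).toFinset.sup id : ℕ) : ℝ)
    have h3 : n ≤ (hfib (y n)).toFinset.sup id := by
      have h4 : n ∈ (hfib (y n)).toFinset := by
        rw [Set.Finite.mem_toFinset]
        rfl
      exact Finset.le_sup (f := id) h4
    exact_mod_cast h3
  have h3 := hM (y n)
  rw [h1] at h3
  have h4 := (le_abs_self _).trans h3
  linarith

/-- A separable pseudocompact space whose co-diagonal is discretely Lindelöf is compact. -/
theorem result {X : Type u} [TopologicalSpace X] (hX : Pseudocompact X)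
    (hs : TopologicalSpace.SeparableSpace X) (h : DiscretelyLindelof (CoDiagonal X)) :
    CompactSpace X := by
  have hT := hX.1
  have hL : LindelofSpace X := Pool.Agent.R820.CoDiag.main h
  exact compact_of_lindelof hX

end Pool.Agent.Results.MP_d32a8c_gt.SeparableCompact
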